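import Pool.Agent.Helper28_TP.StS

/-!
# KEEP: a failed attempt leads to a valid state
-/

set_option autoImplicit false

namespace Pool.Agent.TP.H72

open Pool.Agent.TP

theorem lyr_pos (z : ℤ × ℤ) (i : ℕ) : lyr z i ≠ 0 := by
  unfold lyr; omega

theorem lyr_inj {y z : ℤ × ℤ} {i j : ℕ} (hi : i < 16) (hj : j < 16) (h : lyr y i = lyr z j) :
    y.1 % 3 = z.1 % 3 ∧ y.2 % 3 = z.2 % 3 := by
  unfold lyr at h
  have h1 := Int.emod_nonneg y.1 (by norm_num : (3 : ℤ) ≠ 0)
  have h2 := Int.emod_nonneg y.2 (by norm_num : (3 : ℤ) ≠ 0)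
  have h3 := Int.emod_nonneg z.1 (by norm_num : (3 : ℤ) ≠ 0)
  have h4 := Int.emod_nonneg z.2 (by norm_num : (3 : ℤ) ≠ 0)
  have h5 := Int.emod_lt_of_pos y.1 (by norm_num : (0 : ℤ) < 3)
  have h6 := Int.emod_lt_of_pos y.2 (by norm_num : (0 : ℤ) < 3)
  have h7 := Int.emod_lt_of_pos z.1 (by norm_num : (0 : ℤ) < 3)
  have h8 := Int.emod_lt_of_pos z.2 (by norm_num : (0 : ℤ) < 3)
  constructor <;> omega

/-- The region of an edge lies near the block that is attempted. -/
theorem near_of_edg {k m n : ℕ} {z : ℤ × ℤ} {a : Bool} {g : ℤ} {x : Pt k}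
    (hg : g = 1 ∨ g = -1) (h : Edg (Ms m n) n z a g x) :
    nearB (10 * Ms m n) (nbr z a g) (14 * Ms m n) x := by
  obtain ⟨h1, h2, h3, -, -⟩ := h
  have hM : 0 < Ms m n := by unfold Ms; positivity
  unfold nearB
  cases a
  · simp only [pc, lc, cen, axi, nbr, Bool.not_false, if_true, if_false, Bool.false_eq_true]
      at h1 h2 h3 ⊢
    simp only [one_ne_zero, if_false] at h3 ⊢
    rw [abs_le] at h3
    rw [abs_le, abs_le]
    rcases hg with rfl | rfl <;> refine ⟨⟨?_, ?_⟩, ?_, ?_⟩ <;> nlinarith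
  · simp only [pc, lc, cen, axi, nbr, Bool.not_true, if_true, if_false, Bool.false_eq_true]
      at h1 h2 h3 ⊢
    simp only [one_ne_zero, if_false] at h1 h2 ⊢
    rw [abs_le] at h3
    rw [abs_le, abs_le]
    rcases hg with rfl | rfl <;> refine ⟨⟨?_, ?_⟩, ?_, ?_⟩ <;> nlinarith

theorem keep (hGeo : GeoStmt) : KeepStmt := by
  intro k N ρ p ε m n hN hmn Reg C F X s s' z a g hv hz hg hz' hzC hzF hP
  set z' := nbr z a g with hz'def
  have hgeo := fun x => hGeo k m n hmn z a g x hg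
  have hyz : ∀ y, y ∈ Reg → y ∉ C → y ≠ z := by
    rintro y hy hyC rfl
    rcases hz with h | h
    · exact hyC h
    · exact h hy
  have hins : ∀ {y}, y ∉ insert z' F → y ≠ z' ∧ y ∉ F := by
    intro y hy
    rw [Finset.mem_insert, not_or] at hy
    exact hy
  refine
    { ok := hP.ok
      rc := hP.rc
      hit := ?_
      z4 := ?_
      lays := ?_
      mid := ?_
      tube := ?_
      loc := ?_
      inV := ?_
      xr := hv.xr
      adj := ?_ }
  · intro y hy
    obtain ⟨x, hx, h1, h2⟩ := hv.hit y hy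
    exact ⟨x, hP.sub hx, h1, h2⟩
  · intro y hy hyC hyF x hx
    obtain ⟨hne, hyF⟩ := hins hyF
    rcases hP.cov x hx with h | h
    · exact hv.z4 y hy hyC hyF x h
    · exact (hgeo x h).1 y (hyz y hy hyC) hne
  · intro y hy hyC hyF v hv' i hi
    obtain ⟨hne, hyF⟩ := hins hyF
    have h1 := hv.lays y hy hyC hyF v hv' i hi
    by_contra hcon
    have h2 : s'.q (v, lyr y i) ≠ s.q (v, lyr y i) := by
      rw [h1]; exact hcon
    obtain ⟨h3, h4⟩ := hP.keep v _ h2
    rcases h4 with h4 | ⟨j, hj, h4⟩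
    · exact lyr_pos y i h4
    · obtain ⟨h5, h6⟩ := lyr_inj hi hj h4
      exact (hgeo v h3).2.2.2.1 y hne h5 h6 hv'
  · intro y hy hyC hyF a' g' hg' hn hnC hnF x hx
    obtain ⟨hne, hyF⟩ := hins hyF
    obtain ⟨hnne, hnF⟩ := hins hnF
    rcases hP.cov x hx with h | h
    · exact hv.mid y hy hyC hyF a' g' hg' hn hnC hnF x h
    · exact (hgeo x h).2.2.1 y a' g' hg' (hyz y hy hyC) hne (hyz _ hn hnC) hnne
  · intro y hy a' g' hg' hn hnC hnF
    obtain ⟨hnne, hnF⟩ := hins hnF
    obtain ⟨b, hb, h1, h2, h3, h4, h5⟩ := hv.tube y hy a' g' hg' hn hnC hnF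
    refine ⟨b, hb.trans hP.sub, h1, h2, h3, h4, ?_⟩
    intro x hx hc
    rcases hP.cov x hx with h | h
    · exact h5 x h hc
    · refine (hgeo x h).2.1 y a' g' hg' ?_ (hyz _ hn hnC) hnne ?_ ⟨hc.1, hc.2.2.1, hc.2.2.2⟩
      · intro he
        have e1 : y = z := congrArg Prod.fst he
        have e2 : a' = a := congrArg (fun w => w.2.1) he
        have e3 : g' = g := congrArg (fun w => w.2.2) he
        exact hnne (by rw [e1, e2, e3])
      · rintro rfl
        exact hzC hy
  · intro v j hq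
    by_cases hc : s'.q (v, j) = s.q (v, j)
    · rw [hc] at hq
      rcases hv.loc v j hq with h | ⟨y, hy, h⟩
      · exact Or.inl h
      · refine Or.inr ⟨y, ?_, h⟩
        rw [Finset.mem_union] at hy ⊢
        rcases hy with hy | hy
        · exact Or.inl hy
        · exact Or.inr (Finset.mem_insert_of_mem hy)
    · refine Or.inr ⟨z', ?_, (hgeo v (hP.keep v j hc).1).2.2.2.2⟩
      exact Finset.mem_union_right _ (Finset.mem_insert_self _ _)
  · intro x hx
    rcases hP.covR x hx with h | h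
    · obtain ⟨⟨y, hy, h1⟩, h2⟩ := hv.inV x h
      refine ⟨⟨y, ?_, h1⟩, h2⟩
      rw [Finset.mem_union] at hy ⊢
      rcases hy with hy | hy
      · exact Or.inl hy
      · exact Or.inr (Finset.mem_insert_of_mem hy)
    · exact ⟨⟨z', Finset.mem_union_right _ (Finset.mem_insert_self _ _), near_of_edg hg h⟩,
        h.2.2.2.2⟩
  · intro v hv'
    rcases hP.adj v hv' with h | h
    · rcases hv.adj v h with h1 | ⟨u, hu, h1⟩
      · exact Or.inl h1
      · exact Or.inr ⟨u, hP.sub hu, h1⟩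
    · exact Or.inr h

end Pool.Agent.TP.H72
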