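import Pool.Agent.Helper28_TP.StS

/-!
# STEP: the one-step estimate of the exploration
-/

set_option autoImplicit false

namespace Pool.Agent.TP.H72

open Pool.Agent.TP

theorem q0_mem {k : ℕ} {p ε : ℝ} (hp : 0 < p) (hp1 : p < 1) (hε : 0 < ε) (hε1 : ε < 1)
    (x : Pt k × ℕ) : 0 ≤ q0 p ε x ∧ q0 p ε x ≤ 1 := by
  unfold q0
  split_ifs
  · exact ⟨hp.le, hp1.le⟩
  · exact ⟨hε.le, hε1.le⟩

theorem u01_of_ok {k : ℕ} {p ε : ℝ} {K : ℕ} {s : St k} (hp : 0 < p) (hp1 : p < 1) (hε : 0 < ε)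
    (hε1 : ε < 1) (h : OKs p ε K s) (V : Finset (Pt k × ℕ)) : U01 V s.q := by
  intro x _
  rcases h.val x.1 x.2 with h1 | h1 | h1
  · have h2 : s.q x = 0 := h1
    rw [h2]; norm_num
  · have h2 : s.q x = 1 := h1
    rw [h2]; norm_num
  · have h2 : s.q x = q0 p ε x := h1
    rw [h2]; exact q0_mem hp hp1 hε hε1 x

theorem rv_sub {k : ℕ} (N W : Finset (Pt k)) (ℓ : ℕ) (s : St k) (A : Finset (Pt k × ℕ)) :
    rv N W ℓ s A ⊆ W := by
  classical
  intro v hv
  unfold rv at hv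
  rw [Finset.mem_union] at hv
  rcases hv with hv | hv
  · rw [Finset.mem_sdiff] at hv
    obtain ⟨h1, h2⟩ := hv
    unfold nR at h1
    rw [Finset.mem_union] at h1
    rcases h1 with h1 | h1
    · exact absurd h1 h2
    · rw [Finset.mem_filter] at h1
      have h3 := h1.1
      unfold opAt at h3
      rw [Finset.mem_filter, Finset.mem_sdiff] at h3
      exact h3.1.1
  · unfold nB at hv
    rw [Finset.mem_filter, Finset.mem_sdiff] at hv
    exact hv.1.1

theorem step (hTow : TowStmt) (hSeed : SeedStmt) (hSpr : SprStmt) (hSto : StoStmt) :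
    StepStmt := by
  classical
  intro k N ρ p ε θ hN hp hp1 hε hε1 hθ hperc δ hδ m₁
  have h1p : 0 < 1 - p := by linarith
  have h1ε : 1 - ε < 1 := by linarith
  obtain ⟨t, ht⟩ := exists_pow_lt_of_lt_one (half_pos hδ) h1ε
  have hη : 0 < δ / 2 * (1 - p) ^ t := mul_pos (half_pos hδ) (pow_pos h1p t)
  obtain ⟨m, n, hm, hmn, hseed⟩ := hSeed k N ρ p θ hN hp hp1 hθ hperc _ hη m₁
  refine ⟨m, n, hm, hmn, fun K => ?_⟩
  intro Λ s b a σ ℓ hσ hok h1 hK hwin hb hdis hfr hadj Φ βS βF h0 hSF hS hF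
  set W := win m n b a σ with hW
  obtain ⟨hnxt, hstop⟩ := hSto k N ρ p ε K W ℓ s hN hok h1 hK
  set V := Λ ×ˢ Finset.range (K + 1) with hV
  set Δ : Finset (Pt k × ℕ) → Finset (Pt k × ℕ) := fun A =>
    V.filter (fun x => x.1 ∈ rv N W ℓ s A ∧ (x.2 = ℓ ∨ (x.2 = 0 ∧ x.1 ∉ s.E))) with hΔ
  have hmemV : ∀ v ∈ W, ∀ j ≤ K, (v, j) ∈ V := by
    intro v hv j hj
    rw [hV, Finset.mem_product, Finset.mem_range]
    exact ⟨hwin hv, by omega⟩
  have hT := hTow (Pt k × ℕ) V s.q Δ (fun A _ => Finset.filter_subset _ _) (by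
    intro A hA B hB hAB
    have hagree := hstop A B (by
      intro v hv
      have hvW := rv_sub N W ℓ s A hv
      constructor
      · exact hAB (v, ℓ) (by
          rw [hΔ]
          exact Finset.mem_filter.2 ⟨hmemV v hvW ℓ hK, hv, Or.inl rfl⟩)
      · intro hvE
        exact hAB (v, 0) (by
          rw [hΔ]
          exact Finset.mem_filter.2 ⟨hmemV v hvW 0 (Nat.zero_le _), hv, Or.inr ⟨rfl, hvE⟩⟩))
    simp only [hΔ]
    rw [hagree.2]) Φ
  have hU : U01 V s.q := u01_of_ok hp hp1 hε hε1 hok V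
  have hstate : ∀ A, PS V (fun x => if x ∈ Δ A then (if x ∈ A then 1 else 0) else s.q x) Φ =
      PSt Λ K (nxt N W ℓ s A) Φ := by
    intro A
    unfold PSt
    refine PS_congr (fun x hx => ?_) (fun _ _ => Iff.rfl)
    simp only [nxt, hΔ, Finset.mem_filter]
    by_cases hc : x.1 ∈ rv N W ℓ s A ∧ (x.2 = ℓ ∨ (x.2 = 0 ∧ x.1 ∉ s.E))
    · rw [if_pos ⟨hx, hc⟩, if_pos hc]
    · rw [if_neg (fun h => hc h.2), if_neg hc]
  set G : Finset (Pt k × ℕ) → Prop := fun A =>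
    ¬ ∃ b', isNew m n b a σ b' ∧ bx b' m ⊆ nR N W ℓ s A with hG
  have hfail : PS V s.q G ≤ δ := by
    have h2 := hSpr k N ρ p ε K m n hN hp hp1 hε hε1 Λ s b a σ ℓ hσ hok h1 hK hwin hb
      (by omega) hdis hfr hadj _ t (hseed b a σ hσ)
    have h3 : δ / 2 * (1 - p) ^ t / (1 - p) ^ t = δ / 2 :=
      mul_div_cancel_right₀ _ (pow_pos h1p t).ne'
    rw [h3] at h2
    have h4 : PSt Λ K s G ≤ δ / 2 + (1 - ε) ^ t := h2
    unfold PSt at h4
    linarith
  have hbound : PS V s.q Φ ≤ EX V s.q (fun A => βS + (βF - βS) * (if G A then 1 else 0)) := by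
    rw [hT]
    refine EX_mono hU fun A _ => ?_
    rw [hstate A]
    by_cases hg : G A
    · rw [if_pos hg]
      have := hF _ (hnxt A)
      linarith
    · rw [if_neg hg]
      have h5 : ∃ b', isNew m n b a σ b' ∧ bx b' m ⊆ nR N W ℓ s A := not_not.1 hg
      have := hS _ (hnxt A) h5
      linarith
  have hEX : EX V s.q (fun A => βS + (βF - βS) * (if G A then 1 else 0)) =
      βS + (βF - βS) * PS V s.q G := by
    rw [EX_add, EX_const, EX_mul, PS_def]
  have hfin : PSt Λ K s Φ ≤ βS + (βF - βS) * PS V s.q G := by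
    unfold PSt
    rw [← hEX]
    exact hbound
  nlinarith [mul_le_mul_of_nonneg_left hfail (sub_nonneg.2 hSF)]

end Pool.Agent.TP.H72
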